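import Pool.Agent.H960.IS.All

/-!
# MP_600500_pr, Q1: the Ising measure below the critical inverse temperature

`H960FV.Z d = Fin d → ℤ`, spins are Booleans, `H960IS.sp true = 1`, `H960IS.sp false = -1`; `H960IS.un i` is the
`i`-th unit vector, a bond is a pair `(x, i)` joining `x` and `x + un i`.

* `H960IS.Ed Λ`: the bonds with at least one end in `Λ`; `H960IS.En Λ σ`: the sum over these bonds of the
  products of the two spins; `H960IS.gl Λ τ η`: the configuration `τ` in `Λ`, `η` outside;
  `H960IS.Zn β Λ η = ∑ τ, exp (β * En Λ (gl Λ τ η))`.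
* `H960IS.IsGibbs β μ`: DLR equations: for finite `Λ ⊆ Δ`, all neighbours of `Λ` in `Δ`, and all `ξ`:
  `μ(σ = ξ on Δ) = exp (β En Λ ξ) / Zn β Λ ξ * μ(σ = ξ on Δ \ Λ)`.
* `H960IS.mag β Λ y`: expectation of the spin at `y` in `Λ` with plus boundary condition;
  `H960IS.bx d L`: the box of the `x` with all `|x i| ≤ L`;
  `H960IS.NoMag d β'`: `mag β' (bx d L) 0` becomes arbitrarily small, i.e. (it decreases in `L`) the
  spontaneous magnetisation at `β'` is zero.  `β < β_c` means that `NoMag d β'` for some `β' > β`.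

The theorem: for `0 ≤ β < β_c` every Gibbs measure (there is exactly one) is a finitary factor of a
finite valued iid process whose coding radius has exponential tails.  The coding radius `R` is the least `r`
such that all `x'` which agree with `x` on the `ℓ¹` ball of radius `r` have `φ x' 0 = φ x 0`.
-/

open MeasureTheory H960FV H960IS

namespace Pool.Agent.Results.MP_600500_pr.SubcriticalIsing

theorem result (d : ℕ) [NeZero d] (β β' : ℝ) (h0 : 0 ≤ β) (hβ : β < β') (hc : NoMag d β')
    (μ : Measure ((Fin d → ℤ) → Bool)) [IsProbabilityMeasure μ] (hμ : IsGibbs β μ) :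
    ∃ (T : Type) (_ : Finite T) (_ : MeasurableSpace T) (_ : MeasurableSingletonClass T)
      (ν : Measure T) (_ : IsProbabilityMeasure ν)
      (φ : ((Fin d → ℤ) → T) → (Fin d → ℤ) → Bool),
      Measurable φ ∧
      (∀ (x : (Fin d → ℤ) → T) (w v : Fin d → ℤ), φ (fun u => x (u + w)) v = φ x (v + w)) ∧
      (Measure.infinitePi fun _ : Fin d → ℤ => ν).map φ = μ ∧
      ∃ C c : ℝ, 0 < c ∧ ∀ r : ℕ, (Measure.infinitePi fun _ : Fin d → ℤ => ν).real
        {x | ∃ x' : (Fin d → ℤ) → T, (∀ v : Fin d → ℤ, ∑ i, |v i| ≤ (r : ℤ) → x' v = x v) ∧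
          φ x' 0 ≠ φ x 0} ≤ C * Real.exp (-c * r) :=
  a_ising d β β' h0 hβ hc μ hμ

end Pool.Agent.Results.MP_600500_pr.SubcriticalIsing
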